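import Pool.Agent.helper69.RC.Simple
import Pool.Agent.helper51.RN.PCent
import Pool.Agent.helper80.RN.Nonab
import Pool.Agent.helper80.RSV.Final

set_option autoImplicit false

/-!
# Bounded simple groups (Step 2)

In a residually small variety in which every subdirectly irreducible group with nonabelian least
normal subgroup is finite, the finite nonabelian simple groups have bounded order.
-/

namespace Pool.Agent.helper69.RN

open Pool.Agent.helper80.RSV Pool.Agent.helper7.RC Pool.Agent.helper80.RN Pool.Agent.helper51.RN Function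
open scoped commutatorElement



/-- a subdirectly irreducible quotient of a product of simple groups, with abelian least normal
subgroup, in which given elements do not centralise the least normal subgroup -/
theorem core {W : Set (FreeGroup ℕ)}
    (hfin : ∀ (G : Type) [Group G], Sat W G → NonabSI G → Finite G)
    (hZ : ∀ (G : Type) [Group G], Sat W G → ZP G)
    (S : ℕ → Type) [∀ n, Group (S n)] (hsat : ∀ n, Sat W (S n)) (hsimp : ∀ n, IsSimpleGroup (S n))
    (hnab : ∀ n, ∃ x y : S n, x * y ≠ y * x)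
    (hx : ∀ n, ∃ x : ℕ → S n, ∀ i j, i < 2 * n + 3 → j < 2 * n + 3 → x i = x j → i = j)
    (s : ℕ) (y : ℕ → ∀ n, S n) (hy : ∀ i n, y i n ≠ 1) :
    ∃ (M : Subgroup (∀ n, S n)) (_ : M.Normal) (B : Subgroup ((∀ n, S n) ⧸ M)),
      LeastNormal B ∧ AbSub B ∧
        ∀ i, i < s → ((y i : ∀ n, S n) : (∀ n, S n) ⧸ M) ∉ Subgroup.centralizer (B : Set _) := by
  choose x hx using hx
  -- special elements and differences
  let e : ℕ → ∀ n, S n := fun i n =>
    (x n (Nat.unpair i).1)⁻¹ * x n ((Nat.unpair i).1 + (Nat.unpair i).2 + 1)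
  have he : ∀ n i, i < n → e i n ≠ 1 := by
    intro n i hi h1
    have h2 : x n (Nat.unpair i).1 = x n ((Nat.unpair i).1 + (Nat.unpair i).2 + 1) :=
      inv_mul_eq_one.mp h1
    have h3 := Nat.unpair_left_le i
    have h4 := Nat.unpair_right_le i
    have h5 := hx n _ _ (by omega) (by omega) h2
    omega
  let d : ℕ → ∀ n, S n := fun i => if i < 2 * s then y (i / 2) else e (i - 2 * s)
  have hd : ∀ n i, i < n → d i n ≠ 1 := by
    intro n i hi
    by_cases h : i < 2 * s
    · have h1 : d i = y (i / 2) := if_pos h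
      rw [h1]
      exact hy _ _
    · have h1 : d i = e (i - 2 * s) := if_neg h
      rw [h1]
      exact he n _ (by omega)
  choose ρ z hρ0 hρ using fun n => nested (hsimp n) (hnab n) n (fun i => d i n) (hd n)
  -- the product
  have hH : Sat W (∀ n, S n) := Sat.pi hsat
  let b : ∀ n, S n := fun n => ρ n 0
  have hb : b ∉ Ev S := by
    rintro ⟨m, hm⟩
    exact hρ0 m (hm m le_rfl)
  obtain ⟨M, hMn, hEvM, hbM, hMmax⟩ := exists_max_avoid (Ev_normal S) hb
  have := hMn
  obtain ⟨B, hBn, hB1, hBl⟩ := subdirIrr_quotient hbM hMmax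
  have := hBn
  have hBL : LeastNormal B := ⟨hBn, hB1, hBl⟩
  -- the relation modulo `Ev`
  let R : ℕ → ∀ n, S n := fun i n => ρ n i
  let Z : ℕ → ∀ n, S n := fun i n => z n i
  have hrel : ∀ i, R i * (⁅Z i * d i * (Z i)⁻¹, R (i + 1)⁆)⁻¹ ∈ M := by
    intro i
    apply hEvM
    refine ⟨i + 1, fun n hn => ?_⟩
    have h1 := hρ n i (by omega)
    have h2 : (R i * (⁅Z i * d i * (Z i)⁻¹, R (i + 1)⁆)⁻¹) n =
      ρ n i * (⁅z n i * d i n * (z n i)⁻¹, ρ n (i + 1)⁆)⁻¹ := rfl
    rw [h2, ← h1, mul_inv_cancel]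
  have hstep : ∀ (K : Subgroup (∀ n, S n)), K.Normal → M ≤ K → ∀ i,
      ⁅Z i * d i * (Z i)⁻¹, R (i + 1)⁆ ∈ K → R i ∈ K := by
    intro K _ hMK i hi
    have h1 := K.mul_mem (hMK (hrel i)) hi
    rwa [inv_mul_cancel_right] at h1
  have hcommK : ∀ (K : Subgroup (∀ n, S n)), K.Normal → ∀ u v, (u ∈ K ∨ v ∈ K) → ⁅u, v⁆ ∈ K := by
    intro K hK u v huv
    rcases huv with hu | hv
    · have h1 : ⁅u, v⁆ = u * (v * u⁻¹ * v⁻¹) := by
        rw [commutatorElement_def]; group
      rw [h1]
      exact K.mul_mem hu (hK.conj_mem _ (K.inv_mem hu) v)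
    · rw [commutatorElement_def]
      exact K.mul_mem (hK.conj_mem _ hv u) (K.inv_mem hv)
  have hdesc : ∀ (K : Subgroup (∀ n, S n)), K.Normal → M ≤ K → ∀ i, R i ∈ K → ∀ j, j ≤ i →
      R j ∈ K := by
    intro K hK hMK i
    induction i with
    | zero =>
      intro hi j hj
      rw [Nat.le_zero.mp hj]; exact hi
    | succ i ih =>
      intro hi j hj
      rcases Nat.lt_or_ge i j with hlt | hge
      · have : j = i + 1 := by omega
        rw [this]; exact hi
      · exact ih (hstep K hK hMK i (hcommK K hK _ _ (Or.inr hi))) j hge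
  -- no `d i` lies in `M`
  have hdM : ∀ i, d i ∉ M := by
    intro i hi
    have h1 : R i ∈ M := hstep M hMn le_rfl i (hcommK M hMn _ _ (Or.inl (hMn.conj_mem _ hi _)))
    exact hbM (hdesc M hMn le_rfl i h1 0 (Nat.zero_le i))
  -- the quotient is infinite
  have hinfq : ¬ Finite ((∀ n, S n) ⧸ M) := by
    intro hfq
    obtain ⟨c, hc⟩ := Finite.exists_infinite_fiber
      (fun p : ℕ => ((fun n => x n p : ∀ n, S n) : (∀ n, S n) ⧸ M))
    have hinf : ((fun p : ℕ => ((fun n => x n p : ∀ n, S n) : (∀ n, S n) ⧸ M)) ⁻¹' {c}).Infinite :=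
      Set.infinite_coe_iff.mp hc
    obtain ⟨p, hp⟩ := hinf.nonempty
    obtain ⟨q, hq, hpq⟩ := hinf.exists_gt p
    have h1 : ((fun n => x n p : ∀ n, S n) : (∀ n, S n) ⧸ M) =
      ((fun n => x n q : ∀ n, S n) : (∀ n, S n) ⧸ M) := hp.trans hq.symm
    have h2 := QuotientGroup.eq.mp h1
    have h3 : d (2 * s + Nat.pair p (q - p - 1)) =
      (fun n => x n p : ∀ n, S n)⁻¹ * (fun n => x n q : ∀ n, S n) := by
      have h5 : d (2 * s + Nat.pair p (q - p - 1)) = e (2 * s + Nat.pair p (q - p - 1) - 2 * s) :=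
        if_neg (by omega)
      rw [h5, Nat.add_sub_cancel_left]
      funext n
      have h4 : p + (q - p - 1) + 1 = q := by omega
      simp only [e, Nat.unpair_pair, h4]
      rfl
    exact hdM _ (h3 ▸ h2)
  have hBab : AbSub B := by
    by_contra hab
    exact hinfq (hfin _ (hH.quotient M) ⟨B, hBL, hab⟩)
  have hCab := centralizer_abelian hBL (hZ _ (hH.quotient M))
  let M1 : Subgroup (∀ n, S n) := (Subgroup.centralizer (B : Set _)).comap (QuotientGroup.mk' M)
  have hM1n : M1.Normal := inferInstance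
  have hMM1 : M ≤ M1 := by
    intro y hy
    rw [Subgroup.mem_comap]
    have : (QuotientGroup.mk' M) y = 1 := (QuotientGroup.eq_one_iff y).mpr hy
    rw [this]; exact Subgroup.one_mem _
  have hcomm : ∀ u ∈ M1, ∀ v ∈ M1, ⁅u, v⁆ ∈ M := by
    intro u hu v hv
    rw [← QuotientGroup.eq_one_iff]
    have h1 : (QuotientGroup.mk' M) ⁅u, v⁆ = 1 := by
      rw [map_commutatorElement]
      exact commutatorElement_eq_one_iff_mul_comm.mpr (hCab _ hu _ hv)
    exact h1
  have hkey : ∀ i i', i < i' → d i ∈ M1 → d i' ∈ M1 → False := by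
    intro i i' hii hdi hdi'
    have h1 : R i' ∈ M1 :=
      hstep M1 hM1n hMM1 i' (hcommK M1 hM1n _ _ (Or.inl (hM1n.conj_mem _ hdi' _)))
    have h2 : R (i + 1) ∈ M1 := hdesc M1 hM1n hMM1 i' h1 (i + 1) hii
    have h3 : R i ∈ M := hstep M hMn le_rfl i (hcomm _ (hM1n.conj_mem _ hdi _) _ h2)
    exact hbM (hdesc M hMn le_rfl i h3 0 (Nat.zero_le i))
  refine ⟨M, hMn, B, hBL, hBab, fun i hi hmem => ?_⟩
  have h1 : d (2 * i) = y i := by
    have h2 : d (2 * i) = y (2 * i / 2) := if_pos (by omega)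
    rw [h2]
    congr 1
    omega
  have h3 : d (2 * i + 1) = y i := by
    have h2 : d (2 * i + 1) = y ((2 * i + 1) / 2) := if_pos (by omega)
    rw [h2]
    congr 1
    omega
  have hmem' : y i ∈ M1 := hmem
  exact hkey (2 * i) (2 * i + 1) (by omega) (h1 ▸ hmem') (h3 ▸ hmem')

/-- an abelian least normal subgroup of a group of finite exponent is elementary abelian -/
theorem elementary {G : Type*} [Group G] {B : Subgroup G} (hB : LeastNormal B) (hab : AbSub B)
    {E : ℕ} (hE : 0 < E) (hexp : ∀ x : G, x ^ E = 1) :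
    ∃ p : ℕ, p.Prime ∧ p ∣ E ∧ (∀ x ∈ B, x ^ p = 1) ∧ ∃ x : G, orderOf x = p := by
  obtain ⟨hBn, hB1, hBl⟩ := hB
  obtain ⟨⟨b, hbB⟩, hb1⟩ := Subgroup.ne_bot_iff_exists_ne_one.mp hB1
  have hb : b ≠ 1 := fun h => hb1 (Subtype.ext h)
  have ho1 : orderOf b ≠ 1 := fun h => hb (orderOf_eq_one_iff.mp h)
  have hoE : orderOf b ∣ E := orderOf_dvd_of_pow_eq_one (hexp b)
  have ho0 : orderOf b ≠ 0 := by
    rintro h
    rw [h, zero_dvd_iff] at hoE
    omega
  set p := (orderOf b).minFac with hp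
  have hpp : p.Prime := Nat.minFac_prime ho1
  have hpo : p ∣ orderOf b := Nat.minFac_dvd _
  have hc : orderOf (b ^ (orderOf b / p)) = p := orderOf_pow_orderOf_div ho0 hpo
  have hcB : b ^ (orderOf b / p) ∈ B := B.pow_mem hbB _
  let Bp : Subgroup G :=
    { carrier := {x | x ∈ B ∧ x ^ p = 1}
      one_mem' := ⟨B.one_mem, one_pow _⟩
      mul_mem' := by
        rintro x y ⟨hx, hx1⟩ ⟨hy, hy1⟩
        refine ⟨B.mul_mem hx hy, ?_⟩
        rw [(show Commute x y from hab x hx y hy).mul_pow, hx1, hy1, one_mul]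
      inv_mem' := by
        rintro x ⟨hx, hx1⟩
        exact ⟨B.inv_mem hx, by rw [inv_pow, hx1, inv_one]⟩ }
  have hBpn : Bp.Normal := ⟨fun x hx g => ⟨hBn.conj_mem x hx.1 g, by
    rw [conj_pow, hx.2, mul_one, mul_inv_cancel]⟩⟩
  have hBp : B ≤ Bp := by
    apply hBl Bp hBpn
    intro hbot
    have h1 : b ^ (orderOf b / p) ∈ Bp := ⟨hcB, by
      have := pow_orderOf_eq_one (b ^ (orderOf b / p))
      rwa [hc] at this⟩
    rw [hbot, Subgroup.mem_bot] at h1
    rw [h1, orderOf_one] at hc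
    exact hpp.one_lt.ne hc
  exact ⟨p, hpp, hpo.trans hoE, fun x hx => (hBp hx).2, _, hc⟩

/-- **Step 2.**  The finite nonabelian simple members have bounded order. -/
theorem simple_bounded {W : Set (FreeGroup ℕ)} (hR : ResSmall W)
    (hfin : ∀ (G : Type) [Group G], Sat W G → NonabSI G → Finite G) :
    ∃ B : ℕ, ∀ (S : Type) [Group S], Sat W S → Finite S → IsSimpleGroup S →
      (∃ x y : S, x * y ≠ y * x) → Nat.card S ≤ B := by
  have hZ : ∀ (G : Type) [Group G], Sat W G → ZP G := fun G _ hG => zp_of_rs hR hG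
  obtain ⟨E, hE0, hE⟩ := exists_expP hZ
  by_contra hcon
  push Not at hcon
  choose S hG hsat hfS hsimp hnab hcard using fun n : ℕ => hcon (2 * n + 3)
  let _ : ∀ n, Group (S n) := hG
  -- colours
  obtain ⟨c, hc⟩ := Finite.exists_infinite_fiber
    (fun n : ℕ => ((∀ t : S n, t ^ E = 1), {p : Fin (E + 1) | p.val ∣ Nat.card (S n)}))
  have hinf := Set.infinite_coe_iff.mp hc
  choose m hm hmn using fun n => hinf.exists_gt n
  have hcol : ∀ n, ((∀ t : S (m n), t ^ E = 1),
      {p : Fin (E + 1) | p.val ∣ Nat.card (S (m n))}) = c := hm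
  have hx : ∀ n, ∃ x : ℕ → S (m n), ∀ i j, i < 2 * n + 3 → j < 2 * n + 3 → x i = x j → i = j := by
    intro n
    have := hfS (m n)
    have h0 := hcard (m n)
    have h00 := hmn n
    have h1 : Fintype.card (Fin (2 * n + 3)) ≤ Nat.card (S (m n)) := by
      rw [Fintype.card_fin]; omega
    have : Fintype (S (m n)) := Fintype.ofFinite _
    rw [Nat.card_eq_fintype_card] at h1
    obtain ⟨e⟩ := Function.Embedding.nonempty_of_card_le h1
    refine ⟨fun i => if hi : i < 2 * n + 3 then e ⟨i, hi⟩ else 1, fun i j hi hj hij => ?_⟩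
    simp only [hi, hj, dif_pos] at hij
    have := e.injective hij
    exact congrArg Fin.val this
  by_cases hexp : ∀ t : S (m 0), t ^ E = 1
  · -- exponent dividing `E`
    have hexp' : ∀ n, ∀ t : S (m n), t ^ E = 1 := by
      intro n
      have h1 := (congrArg Prod.fst (hcol n)).trans (congrArg Prod.fst (hcol 0)).symm
      exact (iff_of_eq h1).mpr hexp
    have hset : ∀ n, {p : Fin (E + 1) | p.val ∣ Nat.card (S (m n))} =
        {p : Fin (E + 1) | p.val ∣ Nat.card (S (m 0))} := fun n =>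
      (congrArg Prod.snd (hcol n)).trans (congrArg Prod.snd (hcol 0)).symm
    have hdvd : ∀ n p, p < E + 1 → (p ∣ Nat.card (S (m n)) ↔ p ∣ Nat.card (S (m 0))) := by
      intro n p hp
      have h1 : (⟨p, hp⟩ : Fin (E + 1)) ∈ {p : Fin (E + 1) | p.val ∣ Nat.card (S (m n))} ↔
          (⟨p, hp⟩ : Fin (E + 1)) ∈ {p : Fin (E + 1) | p.val ∣ Nat.card (S (m 0))} := by
        rw [hset n]
      exact h1
    have hy : ∀ (p n : ℕ), ∃ y : S (m n), y ≠ 1 ∧
        (p.Prime → p ∣ Nat.card (S (m n)) → y ^ p = 1) := by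
      intro p n
      by_cases h : p.Prime ∧ p ∣ Nat.card (S (m n))
      · have := hfS (m n)
        have : Fact p.Prime := ⟨h.1⟩
        obtain ⟨y, hy⟩ := exists_prime_orderOf_dvd_card' p h.2
        refine ⟨y, fun h1 => ?_, fun _ _ => ?_⟩
        · rw [h1, orderOf_one] at hy
          exact h.1.one_lt.ne hy
        · rw [← hy]; exact pow_orderOf_eq_one y
      · obtain ⟨y, hy⟩ : ∃ y : S (m n), y ≠ 1 := by
          obtain ⟨a, b, hab⟩ := hnab (m n)
          refine ⟨a, fun h1 => hab ?_⟩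
          rw [h1, one_mul, mul_one]
        exact ⟨y, hy, fun h1 h2 => absurd ⟨h1, h2⟩ h⟩
    choose y hy1 hyp using hy
    obtain ⟨M, hMn, B, hBL, hBab, hBy⟩ := core hfin hZ (fun n => S (m n)) (fun n => hsat (m n))
      (fun n => hsimp (m n)) (fun n => hnab (m n)) hx (E + 1) y hy1
    have := hMn
    have hQexp : ∀ q : (∀ n, S (m n)) ⧸ M, q ^ E = 1 := by
      intro q
      obtain ⟨u, rfl⟩ := QuotientGroup.mk_surjective q
      rw [← QuotientGroup.mk_pow]
      have : u ^ E = 1 := funext fun n => hexp' n (u n)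
      rw [this]; rfl
    obtain ⟨p, hp, hpE, hBp, x, hxo⟩ := elementary hBL hBab hE0 hQexp
    have hpE' : p < E + 1 := Nat.lt_succ_of_le (Nat.le_of_dvd hE0 hpE)
    by_cases hpS : p ∣ Nat.card (S (m 0))
    · apply hBy p hpE'
      rw [Subgroup.mem_centralizer_iff]
      intro b hb
      refine p_centralises (fun K => zp_of_rs hR (((Sat.pi fun n => hsat (m n)).quotient M).subgroup K))
        hBL.1 hBab hp hBp ?_ b hb
      rw [← QuotientGroup.mk_pow]
      have : (y p) ^ p = 1 := funext fun n => hyp p n hp ((hdvd n p hpE').mpr hpS)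
      rw [this]; rfl
    · -- `H` has no elements of order `p`
      obtain ⟨a, k, hk, hEk⟩ := Nat.exists_eq_pow_mul_and_not_dvd hE0.ne' p hp.ne_one
      have hkH : ∀ n, ∀ t : S (m n), t ^ k = 1 := by
        intro n t
        have := hfS (m n)
        have h1 : orderOf t ∣ p ^ a * k := by
          rw [← hEk]; exact orderOf_dvd_of_pow_eq_one (hexp' n t)
        have h2 : Nat.Coprime (orderOf t) (p ^ a) := by
          apply Nat.Coprime.pow_right
          rw [Nat.coprime_comm, Nat.Prime.coprime_iff_not_dvd hp]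
          intro h3
          exact hpS ((hdvd n p hpE').mp (h3.trans (orderOf_dvd_natCard t)))
        exact orderOf_dvd_iff_pow_eq_one.mp (h2.dvd_of_dvd_mul_left h1)
      obtain ⟨u, hu⟩ := QuotientGroup.mk_surjective x
      have h1 : x ^ k = 1 := by
        rw [← hu, ← QuotientGroup.mk_pow]
        have : u ^ k = 1 := funext fun n => hkH n (u n)
        rw [this]; rfl
      apply hk
      rw [← hxo]
      exact orderOf_dvd_of_pow_eq_one h1
  · -- exponent not dividing `E`
    have hexp' : ∀ n, ¬ ∀ t : S (m n), t ^ E = 1 := by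
      intro n h
      apply hexp
      have h1 := (congrArg Prod.fst (hcol n)).trans (congrArg Prod.fst (hcol 0)).symm
      exact (iff_of_eq h1).mp h
    push Not at hexp'
    choose t ht using hexp'
    obtain ⟨M, hMn, B, hBL, hBab, hBy⟩ := core hfin hZ (fun n => S (m n)) (fun n => hsat (m n))
      (fun n => hsimp (m n)) (fun n => hnab (m n)) hx 1 (fun _ n => (t n) ^ E) (fun _ n => ht n)
    have := hMn
    apply hBy 0 Nat.one_pos
    rw [Subgroup.mem_centralizer_iff]
    intro b hb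
    have h1 := (hE _ ((Sat.pi fun n => hsat (m n)).quotient M) B hBL.1 hBab
      ((fun n => t n : ∀ n, S (m n)) : (∀ n, S (m n)) ⧸ M) b hb).1
    exact h1.symm

end Pool.Agent.helper69.RN
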